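import Pool.Agent.R662.WH.Fin

/-!
# Best constant in the weighted Hardy inequality with weight `(1 + |x|^2)^α`

The exact value of `C(α, n)` for every `n ≥ 3` and every real `α ≠ -(n - 2)/2`.
-/

set_option autoImplicit false

open MeasureTheory
open scoped ContDiff

namespace Pool.Agent.Results.MP_5b99fd_an.BestConstant

noncomputable section

/-- The numerator `∫ (1 + |x|^2)^α |∇u|^2 dx`. -/
def energy (n : ℕ) (α : ℝ) (u : EuclideanSpace ℝ (Fin n) → ℝ) : ℝ :=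
  ∫ x, (1 + ‖x‖ ^ 2) ^ α * ‖fderiv ℝ u x‖ ^ 2

/-- The denominator `∫ (1 + |x|^2)^(α - 1) u^2 dx`. -/
def mass (n : ℕ) (α : ℝ) (u : EuclideanSpace ℝ (Fin n) → ℝ) : ℝ :=
  ∫ x, (1 + ‖x‖ ^ 2) ^ (α - 1) * u x ^ 2

/-- The set `𝒜_α` of nonzero smooth compactly supported functions; for `α < -(n - 2)/2` they must
also satisfy `∫ (1 + |x|^2)^(α - 1) u dx = 0`. -/
def Admissible (n : ℕ) (α : ℝ) (u : EuclideanSpace ℝ (Fin n) → ℝ) : Prop :=
  ContDiff ℝ ∞ u ∧ HasCompactSupport u ∧ u ≠ 0 ∧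
    (α < -((n : ℝ) - 2) / 2 → ∫ x, (1 + ‖x‖ ^ 2) ^ (α - 1) * u x = 0)

/-- The best constant `C(α, n)`: the infimum of the quotients. -/
def bestConstant (n : ℕ) (α : ℝ) : ℝ :=
  sInf {q : ℝ | ∃ u : EuclideanSpace ℝ (Fin n) → ℝ, Admissible n α u ∧
    q = energy n α u / mass n α u}

/-- **The best constant for all `n ≥ 3` and all real `α ≠ -(n - 2)/2`.** With
`c = (n + 2 α - 2)^2 / 4`:
* `α > -(n - 2)/2`: `C(α, n) = c` if `α ≤ 1 + n/2`, and `C(α, n) = 2 n (α - 1)` if `α ≥ 1 + n/2`;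
* `α < -(n - 2)/2`: `C(α, n) = c` if `α ≥ -(n + 2)/2`, `C(α, n) = -4 α - 2 n` if
  `-n ≤ α ≤ -(n + 2)/2`, and `C(α, n) = -2 α` if `α ≤ -n`. -/
theorem result (n : ℕ) (hn : 3 ≤ n) (α : ℝ) (hα : α ≠ -((n : ℝ) - 2) / 2) :
    bestConstant n α =
      if -((n : ℝ) - 2) / 2 < α then
        if α ≤ 1 + (n : ℝ) / 2 then ((n : ℝ) + 2 * α - 2) ^ 2 / 4 else 2 * n * (α - 1)
      else
        if -((n : ℝ) + 2) / 2 ≤ α then ((n : ℝ) + 2 * α - 2) ^ 2 / 4
        else if -(n : ℝ) ≤ α then -4 * α - 2 * n else -2 * α := by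
  split_ifs with h1 h2 h3 h4
  · exact (Pool.Agent.R256.HW.best_eq (by omega) h1).trans (if_pos h2)
  · exact (Pool.Agent.R256.HW.best_eq (by omega) h1).trans (if_neg h2)
  · refine (Pool.Agent.R662.WH.best_neg n hn α (lt_of_le_of_ne (not_lt.mp h1) hα)).trans ?_
    unfold Pool.Agent.R662.WH.Cneg
    rw [if_pos h3]
    ring
  · refine (Pool.Agent.R662.WH.best_neg n hn α (lt_of_le_of_ne (not_lt.mp h1) hα)).trans ?_
    unfold Pool.Agent.R662.WH.Cneg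
    rw [if_neg h3, if_pos h4]
  · refine (Pool.Agent.R662.WH.best_neg n hn α (lt_of_le_of_ne (not_lt.mp h1) hα)).trans ?_
    unfold Pool.Agent.R662.WH.Cneg
    rw [if_neg h3, if_neg h4]

end

end Pool.Agent.Results.MP_5b99fd_an.BestConstant
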